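import Mathlib
import Pool.Agent.QuasiIdAlt4

set_option autoImplicit false

namespace Pool.Agent.Results.MP_db5ef1_al.AlternativeRings

open Pool.Agent.QuasiId

/-- Triples (vector, vector, scalar) over `ZMod p` with the product
`(v, w, s) (v', w', s') = (0, v × v', w · v')`. -/
def Ring7 (p : ℕ) : Type := (Fin 3 → ZMod p) × (Fin 3 → ZMod p) × ZMod p

instance (p : ℕ) : AddCommGroup (Ring7 p) :=
  inferInstanceAs (AddCommGroup ((Fin 3 → ZMod p) × (Fin 3 → ZMod p) × ZMod p))

instance (p : ℕ) : NonUnitalNonAssocRing (Ring7 p) :=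
  { (inferInstance : AddCommGroup (Ring7 p)) with
    mul := fun x y => (0, crossProduct x.1 y.1, dotProduct x.2.1 y.1)
    left_distrib := fun x y z => Prod.ext (by change (0 : Fin 3 → ZMod p) = 0 + 0; simp)
      (Prod.ext
        (by change crossProduct x.1 (y.1 + z.1) = crossProduct x.1 y.1 + crossProduct x.1 z.1
            rw [map_add])
        (by change dotProduct x.2.1 (y.1 + z.1) = dotProduct x.2.1 y.1 + dotProduct x.2.1 z.1
            rw [dotProduct_add]))
    right_distrib := fun x y z => Prod.ext (by change (0 : Fin 3 → ZMod p) = 0 + 0; simp)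
      (Prod.ext
        (by change crossProduct (x.1 + y.1) z.1 = crossProduct x.1 z.1 + crossProduct y.1 z.1
            rw [map_add]; rfl)
        (by change dotProduct (x.2.1 + y.2.1) z.1 = dotProduct x.2.1 z.1 + dotProduct y.2.1 z.1
            rw [add_dotProduct]))
    zero_mul := fun x => Prod.ext rfl (Prod.ext
      (by change crossProduct 0 x.1 = 0; rw [map_zero]; rfl)
      (by change dotProduct 0 x.1 = 0; rw [zero_dotProduct]))
    mul_zero := fun x => Prod.ext rfl (Prod.ext
      (by change crossProduct x.1 0 = 0; rw [map_zero])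
      (by change dotProduct x.2.1 0 = 0; rw [dotProduct_zero])) }

instance (p : ℕ) [NeZero p] : Finite (Ring7 p) :=
  inferInstanceAs (Finite ((Fin 3 → ZMod p) × (Fin 3 → ZMod p) × ZMod p))

lemma Ring7.card (p : ℕ) [NeZero p] : Nat.card (Ring7 p) = p ^ 7 := by
  have : Nat.card ((Fin 3 → ZMod p) × (Fin 3 → ZMod p) × ZMod p) = p ^ 7 := by
    rw [Nat.card_eq_fintype_card]
    simp only [Fintype.card_prod, Fintype.card_fun, Fintype.card_fin, ZMod.card]
    ring
  exact this

lemma Ring7.props (p : ℕ) [Fact p.Prime] : IsAlternativeRing (Ring7 p) ∧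
    ¬ IsAssociativeRing (Ring7 p) := by
  have h3' : ∀ x y z : Ring7 p, x * (y * z) = 0 := fun x y z =>
    Prod.ext rfl (Prod.ext (by change crossProduct x.1 0 = 0; rw [map_zero])
      (by change dotProduct x.2.1 0 = 0; rw [dotProduct_zero]))
  have h3 : ∀ x y z : Ring7 p, dotProduct (crossProduct x.1 y.1) z.1 = 0 → (x * y) * z = 0 :=
    fun x y z h => Prod.ext rfl (Prod.ext (by change crossProduct 0 z.1 = 0; rw [map_zero]; rfl) h)
  refine ⟨⟨fun x y => ?_, fun x y => ?_⟩, fun h => ?_⟩
  · rw [h3', h3]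
    rw [cross_self, zero_dotProduct]
  · rw [h3', h3]
    rw [dotProduct_comm, dot_cross_self]
  · let e1 : Ring7 p := ((![1, 0, 0], 0, 0) : (Fin 3 → ZMod p) × (Fin 3 → ZMod p) × ZMod p)
    let e2 : Ring7 p := ((![0, 1, 0], 0, 0) : (Fin 3 → ZMod p) × (Fin 3 → ZMod p) × ZMod p)
    let e3 : Ring7 p := ((![0, 0, 1], 0, 0) : (Fin 3 → ZMod p) × (Fin 3 → ZMod p) × ZMod p)
    have h1 : (e1 * e2) * e3 = 0 := (h e1 e2 e3).trans (h3' e1 e2 e3)
    have h2 : dotProduct (crossProduct ![1, 0, 0] ![0, 1, 0]) ![(0 : ZMod p), 0, 1] = 0 :=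
      congrArg (fun w : (Fin 3 → ZMod p) × (Fin 3 → ZMod p) × ZMod p => w.2.2) h1
    rw [cross_apply] at h2
    simp [dotProduct, Fin.sum_univ_three] at h2

lemma associative_of_basis (A : Type) [NonUnitalNonAssocRing A] (hfin : Finite A)
    (halt : IsAlternativeRing A) (hbasis : HasFiniteBasis A) :
    IsAssociativeRing A ∧
      ∀ N : NonUnitalSubring A, NilpotentRing N → ∀ x ∈ N, ∀ y ∈ N, x * y = 0 := by
  have hnull : Alt.Null A := by
    intro N _ inc hinc hN x y
    by_contra hxy
    exact mainAll A N inc hinc hN x y hxy hbasis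
  refine ⟨fun x y z => sub_eq_zero.mp (Alt.assoc_of_null (Nat.card A) A halt hnull le_rfl x y z),
    fun N hN x hx y hy => hnull.mul_eq_zero N hN x y hx hy⟩

/-- A finite alternative ring that has a finite basis of quasi-identities is associative, and all
its nilpotent subrings have zero multiplication. For every prime `p` there is an alternative, not
associative ring with `p ^ 7` elements, so it has no finite basis of quasi-identities. -/
theorem result :
    (∀ (A : Type) [NonUnitalNonAssocRing A], Finite A → IsAlternativeRing A → HasFiniteBasis A →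
      IsAssociativeRing A ∧
        ∀ N : NonUnitalSubring A, NilpotentRing N → ∀ x ∈ N, ∀ y ∈ N, x * y = 0) ∧
    (∀ p : ℕ, p.Prime → ∃ (A : Type) (_ : NonUnitalNonAssocRing A), Nat.card A = p ^ 7 ∧
      IsAlternativeRing A ∧ ¬ IsAssociativeRing A ∧ ¬ HasFiniteBasis A) := by
  refine ⟨fun A _ h1 h2 h3 => associative_of_basis A h1 h2 h3, fun p hp => ?_⟩
  have : Fact p.Prime := ⟨hp⟩
  exact ⟨Ring7 p, inferInstance, Ring7.card p, (Ring7.props p).1, (Ring7.props p).2,
    fun h => (Ring7.props p).2 (associative_of_basis (Ring7 p) inferInstance (Ring7.props p).1 h).1⟩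

end Pool.Agent.Results.MP_db5ef1_al.AlternativeRings
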