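import Mathlib
import Pool.Agent.QuasiId

set_option autoImplicit false

namespace Pool.Agent.Results.MP_db5ef1_al.JordanRing

open Pool.Agent.QuasiId

/-- Quadruples over `ZMod p` with the product
`(a, b, c, d) (a', b', c', d') = (0, 0, a b' + b a', a c' + c a')`. -/
def Ring4 (p : ℕ) : Type := ZMod p × ZMod p × ZMod p × ZMod p

instance (p : ℕ) : AddCommGroup (Ring4 p) :=
  inferInstanceAs (AddCommGroup (ZMod p × ZMod p × ZMod p × ZMod p))

instance (p : ℕ) : NonUnitalNonAssocRing (Ring4 p) :=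
  { (inferInstance : AddCommGroup (Ring4 p)) with
    mul := fun x y => (0, 0, x.1 * y.2.1 + x.2.1 * y.1, x.1 * y.2.2.1 + x.2.2.1 * y.1)
    left_distrib := fun x y z => Prod.ext (by change (0 : ZMod p) = 0 + 0; ring)
      (Prod.ext (by change (0 : ZMod p) = 0 + 0; ring) (Prod.ext
        (by change x.1 * (y.2.1 + z.2.1) + x.2.1 * (y.1 + z.1) =
              (x.1 * y.2.1 + x.2.1 * y.1) + (x.1 * z.2.1 + x.2.1 * z.1); ring)
        (by change x.1 * (y.2.2.1 + z.2.2.1) + x.2.2.1 * (y.1 + z.1) =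
              (x.1 * y.2.2.1 + x.2.2.1 * y.1) + (x.1 * z.2.2.1 + x.2.2.1 * z.1); ring)))
    right_distrib := fun x y z => Prod.ext (by change (0 : ZMod p) = 0 + 0; ring)
      (Prod.ext (by change (0 : ZMod p) = 0 + 0; ring) (Prod.ext
        (by change (x.1 + y.1) * z.2.1 + (x.2.1 + y.2.1) * z.1 =
              (x.1 * z.2.1 + x.2.1 * z.1) + (y.1 * z.2.1 + y.2.1 * z.1); ring)
        (by change (x.1 + y.1) * z.2.2.1 + (x.2.2.1 + y.2.2.1) * z.1 =
              (x.1 * z.2.2.1 + x.2.2.1 * z.1) + (y.1 * z.2.2.1 + y.2.2.1 * z.1); ring)))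
    zero_mul := fun x => Prod.ext rfl (Prod.ext rfl (Prod.ext
      (by change 0 * x.2.1 + 0 * x.1 = 0; ring) (by change 0 * x.2.2.1 + 0 * x.1 = 0; ring)))
    mul_zero := fun x => Prod.ext rfl (Prod.ext rfl (Prod.ext
      (by change x.1 * 0 + x.2.1 * 0 = 0; ring) (by change x.1 * 0 + x.2.2.1 * 0 = 0; ring))) }

lemma Ring4.nilpotent (p : ℕ) : NilpotentRing (Ring4 p) := by
  have key : ∀ (k : ℕ) (a : Ring4 p), IsProduct k a → (2 ≤ k → a.1 = 0 ∧ a.2.1 = 0) ∧
      (3 ≤ k → a.2.2.1 = 0) ∧ (4 ≤ k → a.2.2.2 = 0) := by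
    intro k a h
    induction h with
    | elem a => exact ⟨fun h => by omega, fun h => by omega, fun h => by omega⟩
    | @mul i j a b ha hb h1 h2 =>
      have hi := isProduct_pos ha
      have hj := isProduct_pos hb
      refine ⟨fun _ => ⟨rfl, rfl⟩, fun h => ?_, fun h => ?_⟩
      · change a.1 * b.2.1 + a.2.1 * b.1 = 0
        by_cases c : 2 ≤ i
        · rw [(h1.1 c).1, (h1.1 c).2, zero_mul, zero_mul, add_zero]
        · rw [(h2.1 (by omega)).1, (h2.1 (by omega)).2, mul_zero, mul_zero, add_zero]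
      · change a.1 * b.2.2.1 + a.2.2.1 * b.1 = 0
        by_cases c : 2 ≤ i
        · by_cases c' : 2 ≤ j
          · rw [(h1.1 c).1, (h2.1 c').1, zero_mul, mul_zero, add_zero]
          · rw [(h1.1 c).1, h1.2.1 (by omega), zero_mul, zero_mul, add_zero]
        · rw [h2.2.1 (by omega), (h2.1 (by omega)).1, mul_zero, mul_zero, add_zero]
  exact ⟨4, by norm_num, fun a h => Prod.ext ((key 4 a h).1 (by norm_num)).1
    (Prod.ext ((key 4 a h).1 (by norm_num)).2 (Prod.ext ((key 4 a h).2.1 (by norm_num))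
      ((key 4 a h).2.2 (by norm_num))))⟩

instance (p : ℕ) [NeZero p] : Finite (Ring4 p) :=
  inferInstanceAs (Finite (ZMod p × ZMod p × ZMod p × ZMod p))

lemma Ring4.card (p : ℕ) [NeZero p] : Nat.card (Ring4 p) = p ^ 4 := by
  have : Nat.card (ZMod p × ZMod p × ZMod p × ZMod p) = p ^ 4 := by
    rw [Nat.card_eq_fintype_card]
    simp only [Fintype.card_prod, ZMod.card]
    ring
  exact this

lemma Ring4.props (p : ℕ) [Fact p.Prime] : IsJordanRing (Ring4 p) ∧
    ¬ IsAssociativeRing (Ring4 p) := by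
  refine ⟨⟨fun x y => Prod.ext rfl (Prod.ext rfl (Prod.ext ?_ ?_)), fun x y =>
    Prod.ext rfl (Prod.ext rfl (Prod.ext ?_ ?_))⟩, fun h => ?_⟩
  · change x.1 * y.2.1 + x.2.1 * y.1 = y.1 * x.2.1 + y.2.1 * x.1
    ring
  · change x.1 * y.2.2.1 + x.2.2.1 * y.1 = y.1 * x.2.2.1 + y.2.2.1 * x.1
    ring
  · change (0 : ZMod p) * x.2.1 + 0 * x.1 = 0 * 0 + 0 * 0
    ring
  · change (0 : ZMod p) * x.2.2.1 + (0 * y.2.1 + 0 * y.1) * x.1 =
      0 * (y.1 * x.2.1 + y.2.1 * x.1) + (x.1 * x.2.1 + x.2.1 * x.1) * 0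
    ring
  · have h1 := h ((1, 0, 0, 0) : ZMod p × ZMod p × ZMod p × ZMod p)
      ((1, 0, 0, 0) : ZMod p × ZMod p × ZMod p × ZMod p)
      ((0, 1, 0, 0) : ZMod p × ZMod p × ZMod p × ZMod p)
    have h2 : (0 : ZMod p) * 0 + (1 * 0 + 0 * 1) * 0 = 1 * (1 * 1 + 0 * 0) + 0 * 0 :=
      congrArg (fun w : ZMod p × ZMod p × ZMod p × ZMod p => w.2.2.2) h1
    have h3 : (0 : ZMod p) = 1 := by linear_combination h2
    exact zero_ne_one h3

/-- For every prime `p` some Jordan, not associative ring with `p ^ 4` elements has no finite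
basis of quasi-identities. -/
theorem result (p : ℕ) (hp : p.Prime) :
    ∃ (A : Type) (_ : NonUnitalNonAssocRing A), Nat.card A = p ^ 4 ∧ IsJordanRing A ∧
      ¬ IsAssociativeRing A ∧ ¬ HasFiniteBasis A := by
  have : Fact p.Prime := ⟨hp⟩
  refine ⟨Ring4 p, inferInstance, Ring4.card p, (Ring4.props p).1, (Ring4.props p).2, ?_⟩
  refine mainAll (Ring4 p) (Ring4 p) (NonUnitalRingHom.id _)
    (fun _ _ h => h) (Ring4.nilpotent p)
    ((1, 0, 0, 0) : ZMod p × ZMod p × ZMod p × ZMod p)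
    ((0, 1, 0, 0) : ZMod p × ZMod p × ZMod p × ZMod p) fun h => ?_
  have h2 : (1 : ZMod p) * 1 + 0 * 0 = 0 :=
    congrArg (fun w : ZMod p × ZMod p × ZMod p × ZMod p => w.2.2.1) h
  have h3 : (1 : ZMod p) = 0 := by linear_combination h2
  exact one_ne_zero h3

end Pool.Agent.Results.MP_db5ef1_al.JordanRing
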