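import Mathlib
import Pool.Agent.QuasiId

set_option autoImplicit false

namespace Pool.Agent.Results.MP_db5ef1_al.NilpotentSubrings

open Pool.Agent.QuasiId

/-- A finite, not necessarily associative ring with a nilpotent subring `N` whose multiplication is
not zero has no finite basis of quasi-identities. -/
theorem result (A : Type) [NonUnitalNonAssocRing A] (hA : Finite A) (N : NonUnitalSubring A)
    (hN : NilpotentRing N) (hne : ∃ x ∈ N, ∃ y ∈ N, x * y ≠ 0) : ¬ HasFiniteBasis A := by
  obtain ⟨x, hx, y, hy, hxy⟩ := hne
  refine mainAll A N (NonUnitalSubringClass.subtype N) Subtype.val_injective hN ⟨x, hx⟩ ⟨y, hy⟩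
    fun h => hxy ?_
  exact congrArg Subtype.val h

end Pool.Agent.Results.MP_db5ef1_al.NilpotentSubrings
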